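import Pool.Agent.H458.AR.Fld

/-!
# Project AR (helper458), part PLC: the cubic field has two infinite places if `a > 0`
-/

set_option autoImplicit false

open NumberField

namespace Pool.Agent.H37.AR458

open Pool.Agent.N922.PQ Pool.Agent.H458.AR

theorem real_root {L : Type} [Field L] [NumberField L] {a b : ℤ} {θ : L} (h : IsCub a b θ)
    (φ : L →+* ℂ) (hφ : ComplexEmbedding.IsReal φ) :
    φ θ = ((φ θ).re : ℂ) ∧ (φ θ).re ^ 3 + (a : ℝ) * (φ θ).re + (b : ℝ) = 0 := by
  have h1 : (starRingEnd ℂ) (φ θ) = φ θ := by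
    have h2 := RingHom.congr_fun hφ θ
    exact h2
  have h3 : φ θ = ((φ θ).re : ℂ) := (Complex.conj_eq_iff_re.1 h1).symm
  refine ⟨h3, ?_⟩
  have h4 := congrArg φ h.root
  simp only [map_add, map_mul, map_pow, map_intCast, map_zero] at h4
  rw [h3] at h4
  exact_mod_cast h4

open scoped Classical in
theorem card_le {L : Type} [Field L] [NumberField L] {a b : ℤ} {θ : L} (h : IsCub a b θ)
    (ha : 0 < a) : Fintype.card { φ : L →+* ℂ // ComplexEmbedding.IsReal φ } ≤ 1 := by
  rw [Fintype.card_le_one_iff]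
  rintro ⟨φ, hφ⟩ ⟨ψ, hψ⟩
  obtain ⟨h1, h2⟩ := real_root h φ hφ
  obtain ⟨h3, h4⟩ := real_root h ψ hψ
  have ha' : (0 : ℝ) < (a : ℝ) := by exact_mod_cast ha
  have h5 : (φ θ).re = (ψ θ).re := by
    set x := (φ θ).re
    set y := (ψ θ).re
    have h6 : (x - y) * (x ^ 2 + x * y + y ^ 2 + (a : ℝ)) = 0 := by
      linear_combination h2 - h4
    have h7 : 0 < x ^ 2 + x * y + y ^ 2 + (a : ℝ) := by
      nlinarith [sq_nonneg (x + y), sq_nonneg x, sq_nonneg y]
    exact sub_eq_zero.1 ((mul_eq_zero.1 h6).resolve_right h7.ne')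
  have h8 : φ θ = ψ θ := by rw [h1, h3, h5]
  apply Subtype.ext
  show φ = ψ
  apply RingHom.ext
  intro x
  obtain ⟨r, s, t, rfl⟩ := h.gen x
  simp only [map_add, map_mul, map_pow, map_ratCast, h8]

theorem plc : Pool.Agent.H458.AR.S_PLC := by
  intro L _ _ a b θ h ha
  classical
  have h1 := card_le h ha
  have h0 := InfinitePlace.card_real_embeddings L
  rw [h0] at h1
  have h2 := InfinitePlace.card_add_two_mul_card_eq_rank L
  rw [h.rank] at h2
  have h3 := InfinitePlace.card_eq_nrRealPlaces_add_nrComplexPlaces L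
  have h4 : Fintype.card (InfinitePlace L) = 2 := by omega
  exact h4

end Pool.Agent.H37.AR458
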